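import Pool.Agent.TH430.Lin.Eval

/-!
# MP_236854_co, Q1: the set of lineons has an explicit description

The definitions (`Edge`, `Model`, `pull`, `FinModel`, `Iso`, `IsoClass`, `dens`, `point`, `linModel`,
`IsLineon`, `codeModel`, `enum`, `PolyCode`, `toPoly`, `ComputablyEnumerable`,
`HasExplicitDescription`) are in `Pool.Agent.TH430.Lin.Defs`.

Proof. Let `y_F = x_[F] / (number of labelled models isomorphic to F)` for a labelled model `F` on
`k` vertices. The family consists of the polynomial equations (two inequalities each) which say:
the `y_F` of the models on `k` vertices sum to one; `y` is invariant under the transvections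
`x_i ↦ x_i + x_j`; and `y` is dissociated, that is, the sum of the `y_H` over the labelled models
`H` on `k + l` vertices with prescribed restrictions `F`, `G` to the first `k` and to the last `l`
vertices is `y_F y_G`. Lineons satisfy them because they are limits of models `M_A` with
`A ⊆ F_2^m`, `m → ∞`, which satisfy them up to `O(2^(-m))`. Conversely a solution is a random labelled
model on `n` vertices whose law is invariant under `GL_n(F_2)`; it is a random subset `A` of
`F_2^n \ {0}`, and a second moment computation shows that `M_A` is close to `x`.
-/

set_option autoImplicit false

namespace Pool.Agent.Results.MP_236854_co.ExplicitDescription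

open Pool.Agent.TH430.Lin

/-- The set of lineons has an explicit description: it is the common solution set in `[0,1]^𝓜` of a
computably enumerable family of polynomial inequalities with rational coefficients, each in finitely
many coordinates. -/
theorem result : HasExplicitDescription {x | IsLineon x} := by
  refine ⟨Set.range (fun n => toPoly (PP (Denumerable.ofNat Par n))),
    ⟨fun n => PP (Denumerable.ofNat Par n), (pr_PP.comp (Primrec.ofNat Par)).to_comp, rfl⟩, ?_⟩
  ext x
  show IsLineon x ↔ ∀ P ∈ Set.range (fun n => toPoly (PP (Denumerable.ofNat Par n))),
    0 ≤ MvPolynomial.aeval (coord x) P
  rw [isLineon_iff, ← family_iff, Set.forall_mem_range]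
  constructor
  · intro h n
    rw [aeval_toPoly]
    exact h _
  · intro h u
    have h1 := h (Encodable.encode u)
    rw [aeval_toPoly, Denumerable.ofNat_encode] at h1
    exact h1

end Pool.Agent.Results.MP_236854_co.ExplicitDescription
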